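import Mathlib
import Pool.Agent.H790R2.RpF

set_option autoImplicit false

open Set Filter Topology Metric
open scoped Real

namespace Pool.Agent.Results.MP_140d1b_an.LowerBound

/-- The `p`-th integral mean `M_p(r,h) = ( (1/2π) ∫_0^{2π} |h(r e^{it})|^p dt )^{1/p}`. -/
noncomputable def Mp (p r : ℝ) (h : ℂ → ℂ) : ℝ :=
  (∫ t in (0:ℝ)..(2 * π), ‖h (r * Complex.exp (t * Complex.I))‖ ^ p / (2 * π)) ^ (1 / p)

/-- Subordination `g ≺ f` on the open unit disc: `g = f ∘ φ` there, with `φ` an analytic self-map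
of the open unit disc fixing the origin. -/
def Subord (g f : ℂ → ℂ) : Prop :=
  ∃ φ : ℂ → ℂ, DifferentiableOn ℂ φ (ball 0 1) ∧ MapsTo φ (ball 0 1) (ball 0 1) ∧ φ 0 = 0 ∧
    ∀ z ∈ ball (0:ℂ) 1, g z = f (φ z)

/-- The derivative inequality `M_p(r,g') ≤ M_p(r,f')` on the circle `|z| = r`, for all pairs
`g ≺ f` of analytic functions on the open unit disc. -/
def HoldsAt (p r : ℝ) : Prop :=
  ∀ f g : ℂ → ℂ, DifferentiableOn ℂ f (ball 0 1) → DifferentiableOn ℂ g (ball 0 1) →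
    Subord g f → Mp p r (deriv g) ≤ Mp p r (deriv f)

/-- The number `r_p`: the supremum of all `ρ ∈ (0,1]` such that the derivative inequality holds
for all subordinate pairs and all `0 < r < ρ`. -/
noncomputable def rp (p : ℝ) : ℝ :=
  sSup {ρ : ℝ | 0 < ρ ∧ ρ ≤ 1 ∧ ∀ r : ℝ, 0 < r → r < ρ → HoldsAt p r}

/-- For every `p ≥ 2`, `r_p ≥ √2 - 1 + (3 - 2√2)² / (2 (p + 1 - 2√2))`. -/
theorem result : ∀ p : ℝ, 2 ≤ p →
    √2 - 1 + (3 - 2 * √2) ^ 2 / (2 * (p + 1 - 2 * √2)) ≤ rp p :=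
  fun _ hp => H790R2.Rp.rp_lower_closed hp

end Pool.Agent.Results.MP_140d1b_an.LowerBound
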